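import Pool.Agent.H620R2.Gauge.Defs

/-!
# Proof systems relative to an oracle

(The polynomial-time oracle algorithms and the functions `IsFP A` computed by them are defined in
`Pool.Agent.H620R2.Gauge.Defs`.)
-/

set_option autoImplicit false

namespace Pool.Agent.J4H65.OP

open Pool.Agent.H620R2.Gauge

/-- `P` is a proof system for `L` relative to `A`, in the sense of Cook and Reckhow: it is computable
in polynomial time relative to `A` and its range is `L`. -/
def IsProofSystem (A : Oracle) (L : Set (List Bool)) (P : List Bool → List Bool) : Prop :=
  IsFP A P ∧ Set.range P = L

/-- `P` is a `p`-optimal proof system for `L` relative to `A`: every proof system `Q` for `L`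
relative to `A` is translated into `P` by a function `h` which is computable in polynomial time
relative to `A`. -/
def IsPOptimal (A : Oracle) (L : Set (List Bool)) (P : List Bool → List Bool) : Prop :=
  IsProofSystem A L P ∧ ∀ Q, IsProofSystem A L Q → ∃ h, IsFP A h ∧ ∀ w, P (h w) = Q w

end Pool.Agent.J4H65.OP
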