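import Pool.Agent.J4H65.OP.Opt
import Pool.Agent.H622R2.Exp.Q1
import Pool.Agent.H529R3.Gap.Main

/-!
# The number of the changes is small
-/

set_option autoImplicit false

namespace Pool.Agent.J4H65.OP

open Pool.Agent.NPC Pool.Agent.H620R2.Gauge Pool.Agent.H620R2.Gauge.CC Filter

theorem Fst_unique {c e : ℕ} {M : SAlg} {b : Polynomial ℕ} {A : Oracle} {q : List Bool} {n n' : ℕ}
    (h : Fst c e M b A q n) (h' : Fst c e M b A q n') : n = n' := by
  rcases lt_trichotomy n n' with hl | hl | hl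
  · exact absurd (h'.2.2 n hl h.1) h.2.1
  · exact hl
  · exact absurd (h.2.2 n' hl h'.1) h'.2.1

/-- the number of the scales -/
def KN (N : ℕ) : ℕ := Nat.log 2 (Nat.log 2 (Nat.log 2 N))

/-- the bound for the weights of the programs -/
def WN (c N : ℕ) : ℕ := Nat.log 2 (Nat.log 2 (KN N)) / c

open Classical in
theorem count_le {c : ℕ} (hc : 0 < c) (g : ℕ → SAlg × Polynomial ℕ) (b : ℕ → Polynomial ℕ)
    (A : Oracle) (N : ℕ) :
    ((Finset.range N).filter (fun i => str i ∈ Tf c g b A)).card ≤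
      WN c N * (2 ^ WN c N * (2 * (KN N).size + 2 * WN c N)) := by
  set nA : ℕ → List Bool → ℕ := fun e q =>
    if h : ∃ n, Fst c e (g e).1 (b e) A q n then h.choose else 0 with hnA
  set S : Finset (ℕ × ℕ × ℕ) := Finset.range (WN c N) ×ˢ (Finset.range (2 ^ WN c N) ×ˢ
    Finset.range (2 * (KN N).size + 2 * WN c N)) with hS
  have hcard : S.card = WN c N * (2 ^ WN c N * (2 * (KN N).size + 2 * WN c N)) := by
    rw [hS, Finset.card_product, Finset.card_product, Finset.card_range, Finset.card_range,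
      Finset.card_range]
  rw [← hcard]
  have hsub : (Finset.range N).filter (fun i => str i ∈ Tf c g b A) ⊆
      S.image (fun t => idx (cod (Rb b) t.1 (str t.2.1) t.2.2 (nA t.1 (str t.2.1)))) := by
    intro i hi
    rw [Finset.mem_filter, Finset.mem_range] at hi
    obtain ⟨hiN, e, x, hx, q, l, n, hxe, hl, hF⟩ := hi
    have hn : nA e q = n := by
      rw [hnA]
      simp only
      rw [dif_pos ⟨n, hF⟩]
      exact Fst_unique (Exists.choose_spec (⟨n, hF⟩ : ∃ n, Fst c e (g e).1 (b e) A q n)) hF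
    have hy : str i = cod (Rb b) e q l n := by
      rw [hx, hxe]
      rfl
    have hlen : n ≤ (str i).length := by
      have h1 := lt_length_code (Rb b) e x
      have h2 : (Rb b e).eval x.length = (b e).eval x.length + x.length := by
        simp [Rb]
      have h3 : n ≤ x.length := by
        rw [hxe, Pool.Agent.H620R2.Gauge.length_pairBits, List.length_replicate]
        omega
      rw [hx]
      omega
    have h4 : 2 ^ (str i).length ≤ i + 1 := by
      have := le_idx (str i)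
      rwa [idx_str] at this
    have h5 : 2 ^ n ≤ N :=
      (Nat.pow_le_pow_right (by norm_num) hlen).trans (h4.trans hiN)
    obtain ⟨⟨j, hj, hnj⟩, _, _⟩ := hF
    have h6 : n ≤ Nat.log 2 N := Nat.le_log_of_pow_le (by norm_num) h5
    rw [hnj] at h6
    have h7 : 2 ^ (stp c e q * j) ≤ Nat.log 2 (Nat.log 2 N) :=
      Nat.le_log_of_pow_le (by norm_num) h6
    have h8 : stp c e q * j ≤ KN N := Nat.le_log_of_pow_le (by norm_num) h7
    have h9 : stp c e q ≤ KN N := (Nat.le_mul_of_pos_right _ hj).trans h8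
    have h10 : 2 ^ (c * (e + q.length + 1)) ≤ Nat.log 2 (KN N) :=
      Nat.le_log_of_pow_le (by norm_num) h9
    have h11 : c * (e + q.length + 1) ≤ Nat.log 2 (Nat.log 2 (KN N)) :=
      Nat.le_log_of_pow_le (by norm_num) h10
    have h12 : e + q.length + 1 ≤ WN c N := by
      unfold WN
      rw [Nat.le_div_iff_mul_le hc, mul_comm]
      exact h11
    have h13 : wd q n ≤ 2 * (KN N).size + 2 * WN c N := by
      unfold wd
      rw [hnj, lg_two_pow, lg_two_pow]
      have := Nat.size_le_size h8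
      omega
    have h14 : idx q < 2 ^ WN c N := by
      have h15 := idx_lt q
      have h16 : 2 ^ (q.length + 1) ≤ 2 ^ WN c N := Nat.pow_le_pow_right (by norm_num) (by omega)
      omega
    rw [Finset.mem_image]
    refine ⟨(e, idx q, l), ?_, ?_⟩
    · rw [hS, Finset.mem_product, Finset.mem_product, Finset.mem_range, Finset.mem_range,
        Finset.mem_range]
      simp only
      omega
    · simp only
      rw [str_idx, hn, ← hy, idx_str]
  exact (Finset.card_le_card hsub).trans Finset.card_image_le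

theorem natlog_le {M : ℕ} {x : ℝ} (h : (M : ℝ) ≤ x) (hx : 1 ≤ x) :
    (Nat.log 2 M : ℝ) ≤ Real.logb 2 x := by
  rcases Nat.eq_zero_or_pos M with h0 | h0
  · subst h0
    simp only [Nat.log_zero_right, Nat.cast_zero]
    exact Real.logb_nonneg (by norm_num) hx
  · have h1 : ((2 : ℝ)) ^ (Nat.log 2 M : ℝ) ≤ M := by
      rw [Real.rpow_natCast]
      exact_mod_cast Nat.pow_log_le_self 2 h0.ne'
    have h2 : (0 : ℝ) < M := by exact_mod_cast h0
    rw [Real.le_logb_iff_rpow_le (by norm_num) (by linarith)]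
    exact h1.trans h

/-- the iterated logarithm -/
noncomputable def l4 (N : ℕ) : ℝ := Real.logb 2 (Real.logb 2 (Real.logb 2 (Real.logb 2 N)))

theorem tendsto_l4 : Tendsto l4 atTop atTop := by
  have h := Real.tendsto_logb_atTop (b := 2) (by norm_num)
  exact h.comp (h.comp (h.comp (h.comp tendsto_natCast_atTop_atTop)))

theorem bound_ev {ε : ℝ} (hε : 0 < ε) : ∃ c : ℕ, 0 < c ∧ ∀ᶠ N : ℕ in atTop,
    ((WN c N * (2 ^ WN c N * (2 * (KN N).size + 2 * WN c N)) : ℕ) : ℝ) ≤ l4 N ^ (1 + ε) := by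
  obtain ⟨c, hc⟩ := exists_nat_gt (4 / ε)
  have hcpos : (0 : ℝ) < c := lt_trans (by positivity) hc
  have hc0 : 0 < c := by exact_mod_cast hcpos
  have hcε : 2 / (c : ℝ) ≤ ε / 2 := by
    rw [div_lt_iff₀ hε] at hc
    rw [div_le_div_iff₀ hcpos (by norm_num)]
    linarith
  refine ⟨c, hc0, ?_⟩
  have hlog := Real.tendsto_logb_atTop (b := 2) (by norm_num)
  have t1 : Tendsto (fun N : ℕ => Real.logb 2 (N : ℝ)) atTop atTop :=
    hlog.comp tendsto_natCast_atTop_atTop
  have t2 := hlog.comp t1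
  have t3 := hlog.comp t2
  have t5 := hlog.comp tendsto_l4
  have hbig : ∀ᶠ N : ℕ in atTop, (6 : ℝ) ≤ l4 N ^ (ε / 2) :=
    ((tendsto_rpow_atTop (show 0 < ε / 2 by positivity)).comp tendsto_l4).eventually_ge_atTop 6
  filter_upwards [eventually_ge_atTop 1, t1.eventually_ge_atTop 1, t2.eventually_ge_atTop 1,
    t3.eventually_ge_atTop 1, tendsto_l4.eventually_ge_atTop 1, t5.eventually_ge_atTop 1, hbig]
    with N h0 h1 h2 h3 h4 h5 h6
  simp only [Function.comp_apply] at h1 h2 h3 h5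
  set y := l4 N with hy
  have e1 : (Nat.log 2 N : ℝ) ≤ Real.logb 2 N := natlog_le le_rfl (by exact_mod_cast h0)
  have e2 := natlog_le e1 h1
  have e3 : (KN N : ℝ) ≤ Real.logb 2 (Real.logb 2 (Real.logb 2 N)) := natlog_le e2 h2
  have e4 : (Nat.log 2 (KN N) : ℝ) ≤ y := natlog_le e3 h3
  have e5 : (Nat.log 2 (Nat.log 2 (KN N)) : ℝ) ≤ Real.logb 2 y := natlog_le e4 h4
  have hy0 : (0 : ℝ) < y := by linarith
  have hW : (WN c N : ℝ) ≤ Real.logb 2 y / c := by
    have h7 : (WN c N : ℝ) ≤ (Nat.log 2 (Nat.log 2 (KN N)) : ℝ) / c := Nat.cast_div_le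
    exact h7.trans (by gcongr)
  have h2W : ((2 : ℝ)) ^ (WN c N) ≤ y ^ (1 / (c : ℝ)) := by
    rw [← Real.rpow_natCast]
    calc (2 : ℝ) ^ (WN c N : ℝ) ≤ 2 ^ (Real.logb 2 y / c) :=
          Real.rpow_le_rpow_of_exponent_le (by norm_num) hW
      _ = (2 ^ Real.logb 2 y) ^ (1 / (c : ℝ)) := by
          rw [← Real.rpow_mul (by norm_num)]
          congr 1
          ring
      _ = y ^ (1 / (c : ℝ)) := by
          rw [Real.rpow_logb (by norm_num) (by norm_num) hy0]
  have hWle : (WN c N : ℝ) ≤ y ^ (1 / (c : ℝ)) := by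
    refine le_trans ?_ h2W
    exact_mod_cast (Nat.lt_two_pow_self (n := WN c N)).le
  have hyc : y ^ (1 / (c : ℝ)) ≤ y := by
    calc y ^ (1 / (c : ℝ)) ≤ y ^ (1 : ℝ) := by
          apply Real.rpow_le_rpow_of_exponent_le h4
          rw [div_le_one hcpos]
          exact_mod_cast hc0
      _ = y := Real.rpow_one y
  have hsize : ((KN N).size : ℝ) ≤ y + 1 := by
    rcases Nat.eq_zero_or_pos (KN N) with h8 | h8
    · rw [h8]
      simp only [Nat.size_zero, Nat.cast_zero]
      linarith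
    · have h9 : (KN N).size ≤ Nat.log 2 (KN N) + 1 := by
        rw [Nat.size_le]
        exact Nat.lt_pow_succ_log_self (by norm_num) _
      have h10 : ((KN N).size : ℝ) ≤ (Nat.log 2 (KN N) : ℝ) + 1 := by exact_mod_cast h9
      linarith
  have hy1 : 0 ≤ y ^ (1 / (c : ℝ)) := Real.rpow_nonneg hy0.le _
  push_cast
  calc (WN c N : ℝ) * (2 ^ WN c N * (2 * ((KN N).size : ℝ) + 2 * (WN c N : ℝ)))
      ≤ y ^ (1 / (c : ℝ)) * (y ^ (1 / (c : ℝ)) * (2 * (y + 1) + 2 * y)) := by
        gcongr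
        exact hWle.trans hyc
    _ ≤ y ^ (1 / (c : ℝ)) * (y ^ (1 / (c : ℝ)) * (6 * y)) := by
        gcongr
        linarith
    _ = 6 * (y ^ (1 / (c : ℝ)) * y ^ (1 / (c : ℝ)) * y) := by ring
    _ = 6 * y ^ (2 / (c : ℝ) + 1) := by
        rw [← Real.rpow_add hy0, Real.rpow_add_one hy0.ne']
        congr 3
        ring
    _ ≤ y ^ (ε / 2) * y ^ (ε / 2 + 1) := by
        gcongr
    _ = y ^ (1 + ε) := by
        rw [← Real.rpow_add hy0]
        congr 1
        ring

end Pool.Agent.J4H65.OP
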