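import Pool.Agent.J4H65.OP.Meas
import Pool.Agent.J4H65.OP.Count
import Pool.Agent.H529R3.Lev.Main
import Pool.Agent.H620R2.Gauge2.CoverN

/-!
# Many oracles with `p`-optimal proof systems
-/

set_option autoImplicit false

namespace Pool.Agent.J4H65.OP

open MeasureTheory Filter Pool.Agent.NPC Pool.Agent.H620R2.Gauge Pool.Agent.H620R2.Gauge.CC

open H529R3.Lev (IsSpace IsTHpoly test test_space null_anti null_level)

/-- relative to `A` all nonempty languages in `PSPACE` have `p`-optimal proof systems -/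
def AllOpt (A : Oracle) : Prop :=
  ∀ L : Set (List Bool), L.Nonempty → IsPSPACE A L → ∃ P, IsPOptimal A L P

theorem not_null_base {f : ℕ → ℝ} {ε : ℝ} (hε : 0 < ε)
    (hf : ∀ᶠ N : ℕ in atTop, l4 N ^ (1 + ε) ≤ f N) : ¬ Null f {A | AllOpt A} := by
  classical
  obtain ⟨g, hg⟩ := exists_enum
  choose b hb using fun e : ℕ => act_length (g e).1 (g e).2
  obtain ⟨c, hc, hev⟩ := bound_ev hε
  obtain ⟨N₀, hN₀⟩ := eventually_atTop.1 (hf.and hev)
  set F : ℕ → ℝ := fun N =>
    ((WN c N * (2 ^ WN c N * (2 * (KN N).size + 2 * WN c N)) : ℕ) : ℝ) with hF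
  set C : ℝ := ∑ N ∈ Finset.range N₀, |F N - f N| with hC
  have hC0 : 0 ≤ C := Finset.sum_nonneg fun _ _ => abs_nonneg _
  have hFC : ∀ N, F N ≤ f N + C := by
    intro N
    rcases lt_or_ge N N₀ with h | h
    · have h1 : |F N - f N| ≤ C :=
        Finset.single_le_sum (f := fun N => |F N - f N|) (fun _ _ => abs_nonneg _)
          (Finset.mem_range.2 h)
      have h2 := le_abs_self (F N - f N)
      linarith
    · obtain ⟨h1, h2⟩ := hN₀ N h
      have h3 : F N ≤ l4 N ^ (1 + ε) := h2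
      linarith
  set G : Set Oracle := {B | ∀ e : ℕ, {q : List Bool | ∃ n, Scale c e q n ∧
    Warn (Rb b) e q n B}.Finite} with hG
  have hGpos : 0 < ranO G := by
    have h1 : ∀ᵐ B ∂ranO, B ∈ G := ae_finite c (Rb b)
    have h2 : ranO G = 1 := by
      rw [← prob_compl_eq_zero_iff₀]
      · exact h1
      · exact NullMeasurableSet.of_compl (by
          have h3 : ranO Gᶜ = 0 := h1
          exact NullMeasurableSet.of_null h3)
    rw [h2]
    exact one_pos
  refine not_null_of' f G hGpos (Fi c g b) (Tf c g b) (fun B y hy => Fi_not c g b B y hy)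
    (Tf_local c g b) C (fun B N => ?_) _ fun B hB L hne hL => opt hg hb B hB L hne hL
  have h1 := count_le hc g b (Fi c g b B) N
  have h2 : (((Finset.range N).filter (fun i => str i ∈ Tf c g b (Fi c g b B))).card : ℝ) ≤
      F N := Nat.cast_le.2 h1
  exact h2.trans (hFC N)

theorem main {f : ℕ → ℝ} {ε : ℝ} (hε : 0 < ε)
    (hf : ∀ᶠ N : ℕ in atTop, l4 N ^ (1 + ε) ≤ f N) (O : Set Oracle)
    (hO : ∀ A : Oracle, AllOpt A → (∃ L, IsNP A L ∧ ¬ WithAdvice (IsNP A) Lᶜ) →
      (∀ i ≤ 3, ∃ L, IsSpace i A L ∧ ¬ IsTHpoly i A L) → A ∈ O) : ¬ Null f O := by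
  intro hnull
  set h : ℕ → ℝ := fun N => min (f N) (l4 N ^ (1 + ε)) with hh
  have hhO : Null h O := null_anti (fun N => min_le_left _ _) hnull
  have hlog := Real.tendsto_logb_atTop (b := 2) (by norm_num)
  have t1 : Tendsto (fun N : ℕ => Real.logb 2 (N : ℝ)) atTop atTop :=
    hlog.comp tendsto_natCast_atTop_atTop
  have t2 := hlog.comp t1
  have t3 := hlog.comp t2
  -- the comparison of the gauges
  have hcmp : ∀ x : ℕ → ℝ, (∀ᶠ N in atTop, l4 N ≤ x N) → ∀ ε' : ℝ, 0 < ε' →
      ∃ᶠ N : ℕ in atTop, h N ≤ 2 ^ (x N) ^ ε' := by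
    intro x hx ε' hε'
    refine Eventually.frequently ?_
    filter_upwards [hx, tendsto_l4.eventually
      (H529R3.Gap.rpow_le_two (show 0 < 1 + ε by linarith) hε'),
      tendsto_l4.eventually_ge_atTop 0] with N h1 h2 h3
    calc h N ≤ l4 N ^ (1 + ε) := min_le_right _ _
      _ ≤ 2 ^ (l4 N) ^ ε' := h2
      _ ≤ 2 ^ (x N) ^ ε' := by
        apply Real.rpow_le_rpow_of_exponent_le (by norm_num)
        exact Real.rpow_le_rpow h3 h1 hε'.le
  have c4 : ∀ᶠ N : ℕ in atTop, l4 N ≤ l4 N := Eventually.of_forall fun _ => le_rfl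
  have c3 : ∀ᶠ N : ℕ in atTop, l4 N ≤ Real.logb 2 (Real.logb 2 (Real.logb 2 N)) :=
    t3.eventually H529R3.Lev.log_le_self
  have c2 : ∀ᶠ N : ℕ in atTop, l4 N ≤ Real.logb 2 (Real.logb 2 N) := by
    filter_upwards [c3, t2.eventually H529R3.Lev.log_le_self] with N h1 h2
    exact h1.trans h2
  have c1 : ∀ᶠ N : ℕ in atTop, l4 N ≤ Real.logb 2 N := by
    filter_upwards [c2, t1.eventually H529R3.Lev.log_le_self] with N h1 h2
    exact h1.trans h2
  have hN : Null h {A : Oracle | ∀ L, IsNP A L → WithAdvice (IsNP A) Lᶜ} :=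
    nullN (hcmp _ c1) _ fun A hA => hA _ (hitLang_np A)
  have hcond : ∀ i ≤ 3, H529R3.Lev.Cond i h := by
    intro i hi ε' hε'
    have hx : ∀ᶠ N : ℕ in atTop, l4 N ≤ (Real.logb 2)^[i + 1] (N : ℝ) := by
      interval_cases i
      · exact c1
      · exact c2
      · exact c3
      · exact c4
    exact hcmp _ hx ε' hε'
  have hS : ∀ i : Fin 4, Null h {A : Oracle | ∀ L, IsSpace i A L → IsTHpoly i A L} := fun i =>
    null_level i h (hcond i (by omega)) _ fun A hA => hA _ (test_space i A)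
  have hb := not_null_base hε (f := h) (by
    filter_upwards [hf] with N h1
    exact le_min h1 le_rfl)
  apply hb
  have hu := null_union hhO (null_union hN (null_iUnion _ hS))
  refine hu.mono fun A hA => ?_
  by_contra hcon
  simp only [Set.mem_union, Set.mem_iUnion, Set.mem_ofPred_eq, not_or, not_exists] at hcon
  obtain ⟨h1, h2, h3⟩ := hcon
  apply h1
  refine hO A hA ?_ ?_
  · push Not at h2
    exact h2
  · intro i hi
    have h4 := h3 ⟨i, by omega⟩
    push Not at h4
    exact h4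

end Pool.Agent.J4H65.OP
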