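import Pool.Agent.J4H65.OP.Opt
import Pool.Agent.H620R2.GaugeR.R8

/-!
# False warnings are rare, and the mass of the set of the oracles
-/

set_option autoImplicit false

namespace Pool.Agent.J4H65.OP

open MeasureTheory Pool.Agent.NPC Pool.Agent.H620R2.Gauge Pool.Agent.H620R2.Gauge.CC

theorem cod_inj (R : ℕ → Polynomial ℕ) {e e' : ℕ} {q q' : List Bool} {l l' n n' : ℕ}
    (h : cod R e q l n = cod R e' q' l' n') : e = e' ∧ q = q' ∧ l = l' ∧ n = n' := by
  obtain ⟨h1, h2⟩ := code_inj R h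
  exact ⟨h1, inst_inj h2⟩

theorem warn_le (R : ℕ → Polynomial ℕ) (e : ℕ) (q : List Bool) (n : ℕ) :
    ranO {B | Warn R e q n B} ≤ (2⁻¹ : ENNReal) ^ wd q n := by
  classical
  set s : Finset (List Bool) := (Finset.range (wd q n)).image (fun l => cod R e q l n) with hs
  have hsub : {B | Warn R e q n B} ⊆ Set.pi (s : Set (List Bool)) (fun _ => ({true} : Set Bool)) := by
    intro B hB
    rw [Set.mem_pi]
    intro y hy
    rw [Finset.mem_coe, hs, Finset.mem_image] at hy
    obtain ⟨l, hl, rfl⟩ := hy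
    exact hB l (Finset.mem_range.1 hl)
  refine (measure_mono hsub).trans ?_
  have h2 : ranO (Set.pi (s : Set (List Bool)) (fun _ => ({true} : Set Bool))) =
      ∏ y ∈ s, coinM {true} :=
    Measure.infinitePi_pi (fun _ : List Bool => coinM) (s := s)
      (t := fun _ => ({true} : Set Bool)) (fun i _ => MeasurableSet.singleton _)
  rw [h2, Finset.prod_congr rfl (fun y _ => coinM_singleton _), Finset.prod_const, hs,
    Finset.card_image_of_injOn, Finset.card_range]
  intro l _ l' _ h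
  exact (cod_inj R h).2.2.1

/-- the terms of a convergent series -/
noncomputable def sq (i : ℕ) : ENNReal := (((i + 1 : ℕ) : ENNReal) ^ 2)⁻¹

theorem tsum_sq : ∑' i, sq i ≠ ⊤ := by
  have h1 : Summable (fun i : ℕ => (((i + 1 : ℕ) : NNReal) ^ 2)⁻¹) := by
    have h2 : Summable (fun i : ℕ => (((i : ℕ) : NNReal) ^ 2)⁻¹) := by
      rw [← NNReal.summable_coe]
      have h3 := Real.summable_nat_pow_inv.2 (show 1 < 2 by norm_num)
      refine h3.congr fun i => ?_
      push_cast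
      rfl
    exact (NNReal.summable_nat_add_iff 1).2 h2
  have h3 := ENNReal.tsum_coe_ne_top_iff_summable.2 h1
  refine ne_of_eq_of_ne (tsum_congr fun i => ?_) h3
  unfold sq
  rw [ENNReal.coe_inv (by positivity)]
  push_cast
  rfl

theorem half_pow_size (i : ℕ) : (2⁻¹ : ENNReal) ^ (2 * i.size) ≤ sq i := by
  unfold sq
  rw [mul_comm, pow_mul, ← ENNReal.inv_pow, ← ENNReal.inv_pow]
  apply ENNReal.inv_le_inv.2
  have h1 : i + 1 ≤ 2 ^ i.size := Nat.lt_size_self i
  have h2 : ((i + 1 : ℕ) : ENNReal) ≤ 2 ^ i.size := by exact_mod_cast h1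
  gcongr

theorem half_pow_len (q : List Bool) : (2⁻¹ : ENNReal) ^ (2 * q.length) ≤ 4 * sq (idx q) := by
  unfold sq
  rw [mul_comm 2 q.length, pow_mul, ← ENNReal.inv_pow, ← ENNReal.inv_pow]
  have h1 : idx q + 1 ≤ 2 * 2 ^ q.length := by
    have := idx_lt q
    rw [pow_succ] at this
    omega
  have h2 : ((idx q + 1 : ℕ) : ENNReal) ≤ 2 * 2 ^ q.length := by exact_mod_cast h1
  have h3 : ((idx q + 1 : ℕ) : ENNReal) ^ 2 ≤ 4 * (2 ^ q.length) ^ 2 := by
    calc ((idx q + 1 : ℕ) : ENNReal) ^ 2 ≤ (2 * 2 ^ q.length) ^ 2 := by gcongr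
      _ = 4 * (2 ^ q.length) ^ 2 := by
        rw [mul_pow]
        norm_num
  have h4 : (4 : ENNReal) * (((idx q + 1 : ℕ) : ENNReal) ^ 2)⁻¹ ≥
      4 * (4 * (2 ^ q.length) ^ 2)⁻¹ := by
    gcongr
  refine le_trans (le_of_eq ?_) h4
  rw [ENNReal.mul_inv (Or.inl (by norm_num)) (Or.inl (by norm_num)), ← mul_assoc,
    ENNReal.mul_inv_cancel (by norm_num) (by norm_num), one_mul]

theorem tsum_warn (R : ℕ → Polynomial ℕ) (e : ℕ) :
    ∑' p : List Bool × ℕ, ranO {B | Warn R e p.1 (2 ^ (2 ^ p.2)) B} ≠ ⊤ := by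
  have h1 : ∀ p : List Bool × ℕ, ranO {B | Warn R e p.1 (2 ^ (2 ^ p.2)) B} ≤
      (4 * sq (idx p.1)) * sq p.2 := by
    intro p
    refine (warn_le R e p.1 _).trans ?_
    unfold wd
    rw [lg_two_pow, lg_two_pow, pow_add, mul_comm]
    exact mul_le_mul' (half_pow_len p.1) (half_pow_size p.2)
  refine ne_top_of_le_ne_top ?_ (ENNReal.tsum_le_tsum h1)
  have h0 : ∑' p : List Bool × ℕ, (4 * sq (idx p.1)) * sq p.2 =
      ∑' (q : List Bool) (i : ℕ), (4 * sq (idx q)) * sq i :=
    ENNReal.tsum_prod (f := fun q i => (4 * sq (idx q)) * sq i)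
  rw [h0]
  have h2 : ∀ q : List Bool, ∑' i : ℕ, (4 * sq (idx q)) * sq i = (4 * sq (idx q)) * ∑' i, sq i :=
    fun q => ENNReal.tsum_mul_left
  rw [tsum_congr h2, ENNReal.tsum_mul_right, ENNReal.tsum_mul_left]
  have h3 : ∑' q : List Bool, sq (idx q) ≤ ∑' i, sq i := by
    have hinj : Function.Injective idx := by
      intro a b h
      rw [← str_idx a, ← str_idx b, h]
    exact ENNReal.tsum_comp_le_tsum_of_injective hinj sq
  exact ENNReal.mul_ne_top (ENNReal.mul_ne_top (by norm_num)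
    (ne_top_of_le_ne_top tsum_sq h3)) tsum_sq

/-- almost surely there are only finitely many false warnings -/
theorem ae_finite (c : ℕ) (R : ℕ → Polynomial ℕ) :
    ∀ᵐ B ∂ranO, ∀ e : ℕ, {q : List Bool | ∃ n, Scale c e q n ∧ Warn R e q n B}.Finite := by
  rw [ae_all_iff]
  intro e
  have h1 := ae_finite_setOfPred_mem (tsum_warn R e)
  filter_upwards [h1] with B hB
  refine (hB.image Prod.fst).subset ?_
  rintro q ⟨n, ⟨j, _, rfl⟩, hw⟩
  exact ⟨(q, stp c e q * j), hw, rfl⟩

theorem idx_lt_idx {z y : List Bool} (h : z.length < y.length) : idx z < idx y := by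
  have h1 := idx_lt z
  have h2 := le_idx y
  have h3 : 2 ^ (z.length + 1) ≤ 2 ^ y.length := Nat.pow_le_pow_right (by norm_num) h
  omega

open Classical in
theorem ranO_extends' (Φ : Oracle → Oracle) (T : Oracle → Set (List Bool))
    (hΦ : ∀ B, ∀ y ∉ T (Φ B), Φ B y = B y)
    (hT : ∀ (A A' : Oracle) (y : List Bool), (∀ z : List Bool, z.length < y.length → A z = A' z) →
      (y ∈ T A ↔ y ∈ T A'))
    (σ : List Bool) (k : ℝ)
    (hk : ∀ B, (((Finset.range σ.length).filter (fun i => str i ∈ T (Φ B))).card : ℝ) ≤ k) :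
    ranO {B | Extends (Φ B) σ} ≤ ENNReal.ofReal (2 ^ (k - (σ.length : ℝ))) := by
  by_cases hne : ∃ B₀, Extends (Φ B₀) σ
  · obtain ⟨B₀, h₀⟩ := hne
    set Φ' : Oracle → Oracle := fun B y => if y ∈ T (Φ B₀) then Φ B₀ y else B y with hΦ'
    have hsub : {B | Extends (Φ B) σ} ⊆ {B | Extends (Φ' B) σ} := by
      intro B hB i hi
      have hiff : str i ∈ T (Φ B) ↔ str i ∈ T (Φ B₀) := by
        apply hT
        intro z hz
        have h1 := idx_lt_idx hz
        rw [idx_str] at h1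
        have h2 := hB (idx z) (h1.trans hi)
        have h3 := h₀ (idx z) (h1.trans hi)
        rw [str_idx] at h2 h3
        rw [h2, h3]
      rw [hΦ']
      simp only
      split_ifs with h
      · exact h₀ i hi
      · rw [← hΦ B _ (by rw [hiff]; exact h)]
        exact hB i hi
    refine (measure_mono hsub).trans ((ranO_extends Φ' (T (Φ B₀)) ?_ σ).trans ?_)
    · intro B y hy
      rw [hΦ']
      simp only
      rw [if_neg hy]
    · apply ENNReal.ofReal_le_ofReal
      apply Real.rpow_le_rpow_of_exponent_le (by norm_num)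
      have := hk B₀
      linarith
  · have h1 : {B | Extends (Φ B) σ} = ∅ := by
      ext B
      simp only [Set.mem_ofPred_eq, Set.mem_empty_iff_false, iff_false]
      exact fun h => hne ⟨B, h⟩
    rw [h1, measure_empty]
    exact bot_le

open Classical in
theorem not_null_of' (f : ℕ → ℝ) (G : Set Oracle) (hG : 0 < ranO G) (Φ : Oracle → Oracle)
    (T : Oracle → Set (List Bool)) (hΦ : ∀ B, ∀ y ∉ T (Φ B), Φ B y = B y)
    (hTl : ∀ (A A' : Oracle) (y : List Bool), (∀ z : List Bool, z.length < y.length → A z = A' z) →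
      (y ∈ T A ↔ y ∈ T A')) (c : ℝ)
    (hT : ∀ (B : Oracle) (N : ℕ),
      (((Finset.range N).filter (fun i => str i ∈ T (Φ B))).card : ℝ) ≤ f N + c)
    (O : Set Oracle) (hO : ∀ B ∈ G, Φ B ∈ O) : ¬ Null f O := by
  intro hnull
  have hGtop : ranO G ≠ ⊤ := measure_ne_top _ _
  have hg : 0 < (ranO G).toReal := ENNReal.toReal_pos hG.ne' hGtop
  have hc : (0 : ℝ) < 2 ^ c := Real.rpow_pos_of_pos (by norm_num) _
  set g := (ranO G).toReal with hgdef
  set δ : ℝ := g / 2 / 2 ^ c with hδ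
  have hδpos : 0 < δ := by positivity
  obtain ⟨S, hS, hsum⟩ := hnull δ hδpos
  have h1 : G ⊆ ⋃ σ : S, {B | Extends (Φ B) σ.1} := by
    intro B hB
    obtain ⟨σ, hσ, h⟩ := hS (Φ B) (hO B hB)
    exact Set.mem_iUnion.mpr ⟨⟨σ, hσ⟩, h⟩
  have h2 : ranO G ≤ ENNReal.ofReal (2 ^ c * δ) := by
    calc ranO G ≤ ranO (⋃ σ : S, {B | Extends (Φ B) σ.1}) := measure_mono h1
      _ ≤ ∑' σ : S, ranO {B | Extends (Φ B) σ.1} := measure_iUnion_le _
      _ ≤ ∑' σ : S, ENNReal.ofReal (2 ^ c) *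
          ENNReal.ofReal (2 ^ (f σ.1.length - σ.1.length)) := by
        refine ENNReal.tsum_le_tsum (fun σ => (ranO_extends' Φ T hΦ hTl σ.1
          (f σ.1.length + c) (fun B => hT B _)).trans ?_)
        rw [← ENNReal.ofReal_mul hc.le, ← Real.rpow_add (by norm_num)]
        apply ENNReal.ofReal_le_ofReal
        apply Real.rpow_le_rpow_of_exponent_le (by norm_num)
        linarith
      _ = ENNReal.ofReal (2 ^ c) * ∑' σ : S,
          ENNReal.ofReal (2 ^ (f σ.1.length - σ.1.length)) := ENNReal.tsum_mul_left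
      _ ≤ ENNReal.ofReal (2 ^ c) * ENNReal.ofReal δ := by gcongr
      _ = ENNReal.ofReal (2 ^ c * δ) := (ENNReal.ofReal_mul hc.le).symm
  have h3 : 2 ^ c * δ = g / 2 := by
    rw [hδ]
    field_simp
  rw [h3] at h2
  have h4 := ENNReal.toReal_mono ENNReal.ofReal_ne_top h2
  rw [ENNReal.toReal_ofReal (by positivity)] at h4
  linarith

end Pool.Agent.J4H65.OP
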