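import Pool.Agent.J4H65.OP.Sys

/-!
# The oracle, and the `p`-optimal proof systems
-/

set_option autoImplicit false

namespace Pool.Agent.J4H65.OP

open Pool.Agent.NPC Pool.Agent.H620R2.Gauge Pool.Agent.H620R2.Gauge.CC Pool.Agent.H660R2.NX

/-- acceptance depends on short strings only -/
theorem mem_iff {M : SAlg} {p b : Polynomial ℕ}
    (hb : ∀ x a : List Bool, a.length ≤ p.eval x.length →
      (M.act (pairBits x a)).length ≤ b.eval x.length) {A : Oracle} {L : Set (List Bool)}
    (hM : ∀ x, (∀ s, M.Reach A x s → s.length ≤ p.eval x.length) ∧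
      ∃ s z, M.Reach A x s ∧ M.act (pairBits x s) = true :: z ∧ (x ∈ L ↔ z = [true]))
    (x : List Bool) : x ∈ L ↔ Acc M (cut (b.eval x.length) A) x := by
  obtain ⟨hM1, s, z, hs, hz, hL⟩ := hM x
  have hcong : ∀ s, M.Reach (cut (b.eval x.length) A) x s ↔ M.Reach A x s := by
    refine reach_congr (fun s => s.length ≤ p.eval x.length) hM1 ?_
    intro s q h1 h2
    have h3 := hb x s h1
    rw [h2, List.length_cons] at h3
    unfold cut
    rw [if_pos (by omega)]
  constructor
  · intro hx
    refine ⟨s, (hcong s).2 hs, ?_⟩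
    rw [hz, hL.1 hx]
  · rintro ⟨t, ht, ht2⟩
    have hst := reach_unique hs ((hcong t).1 ht) ⟨_, hz⟩ ⟨_, ht2⟩
    rw [hst, ht2] at hz
    simp only [List.cons.injEq, true_and] at hz
    exact hL.2 hz.symm

/-- The program `q` with the clock `n` is sound for the language of the algorithm `M` (with the
bound `b` for the questions). -/
def Snd (M : SAlg) (b : Polynomial ℕ) (A : Oracle) (q : List Bool) (n : ℕ) : Prop :=
  ∀ (w : List Bool) (m : ℕ) (z : List Bool),
    sim A q w n m [] = some z → Acc M (cut (b.eval z.length) A) z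

/-- The first scale at which the program is not sound. -/
def Fst (c e : ℕ) (M : SAlg) (b : Polynomial ℕ) (A : Oracle) (q : List Bool) (n : ℕ) : Prop :=
  Scale c e q n ∧ ¬ Snd M b A q n ∧ ∀ n' < n, Scale c e q n' → Snd M b A q n'

/-- the instances at which the bit is forced -/
def Fr (c e : ℕ) (M : SAlg) (b : Polynomial ℕ) (A : Oracle) (x : List Bool) : Prop :=
  ∃ (q : List Bool) (l n : ℕ), x = pairBits (pairBits q (List.replicate l true))
    (List.replicate n true) ∧ l < wd q n ∧ Fst c e M b A q n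

theorem Snd_congr {M : SAlg} {b : Polynomial ℕ} {A A' : Oracle} {q : List Bool} {n N : ℕ}
    (h : ∀ z : List Bool, z.length < N → A z = A' z) (h1 : n < N)
    (h2 : b.eval n < N) (hV : Snd M b A q n) : Snd M b A' q n := by
  intro w m z hz
  have h3 : sim A q w n m [] = some z := by
    rw [← hz]
    exact sim_congr (fun s hs => h s (by omega)) m []
  have h4 := sim_length m [] hz
  have h5 : b.eval z.length ≤ b.eval n := eval_mono _ h4
  have h6 : cut (b.eval z.length) A' = cut (b.eval z.length) A := by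
    funext y
    unfold cut
    split_ifs with hy
    · exact (h y (by omega)).symm
    · rfl
  rw [h6]
  exact hV w m z h3

theorem Snd_iff {M : SAlg} {b : Polynomial ℕ} {A A' : Oracle} {q : List Bool} {n N : ℕ}
    (h : ∀ z : List Bool, z.length < N → A z = A' z) (h1 : n < N)
    (h2 : b.eval n < N) : Snd M b A q n ↔ Snd M b A' q n :=
  ⟨Snd_congr h h1 h2, Snd_congr (fun z hz => (h z hz).symm) h1 h2⟩

theorem Fr_congr {c e : ℕ} {M : SAlg} {b : Polynomial ℕ} {A A' : Oracle} {x : List Bool} {N : ℕ}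
    (h : ∀ z : List Bool, z.length < N → A z = A' z) (h1 : x.length < N)
    (h2 : b.eval x.length < N) (hV : Fr c e M b A x) : Fr c e M b A' x := by
  obtain ⟨q, l, n, rfl, hl, hS, hn, hn'⟩ := hV
  have hx : n ≤ (pairBits (pairBits q (List.replicate l true)) (List.replicate n true)).length := by
    rw [Pool.Agent.H620R2.Gauge.length_pairBits, List.length_replicate]
    omega
  have hb : ∀ n' ≤ n, b.eval n' < N := fun n' hn' => (eval_mono _ (hn'.trans hx)).trans_lt h2
  refine ⟨q, l, n, rfl, hl, hS, ?_, fun n' h3 h4 => ?_⟩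
  · rw [← Snd_iff h (by omega) (hb n le_rfl)]
    exact hn
  · rw [← Snd_iff h (by omega) (hb n' h3.le)]
    exact hn' n' h3 h4

variable (c : ℕ) (g : ℕ → SAlg × Polynomial ℕ) (b : ℕ → Polynomial ℕ)

/-- the lengths of the code strings -/
noncomputable def Rb : ℕ → Polynomial ℕ := fun e => b e + Polynomial.X

/-- what the code strings say -/
def Vt (B : Oracle) (e : ℕ) (A : Oracle) (x : List Bool) : Prop :=
  B (code (Rb b) e x) = true ∨ Fr c e (g e).1 (b e) A x

/-- the oracle -/
noncomputable def Fi (B : Oracle) : Oracle := Phi (Rb b) (Vt c g b B) B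

/-- the strings at which the oracle is changed -/
def Tf (A : Oracle) : Set (List Bool) :=
  {y | ∃ (e : ℕ) (x : List Bool), y = code (Rb b) e x ∧ Fr c e (g e).1 (b e) A x}

theorem Fr_local (e : ℕ) (A A' : Oracle) (x : List Bool)
    (h : ∀ z : List Bool, z.length < (code (Rb b) e x).length → A z = A' z) :
    Fr c e (g e).1 (b e) A x ↔ Fr c e (g e).1 (b e) A' x := by
  have h1 := lt_length_code (Rb b) e x
  have h2 : (Rb b e).eval x.length = (b e).eval x.length + x.length := by
    simp [Rb]
  rw [h2] at h1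
  exact ⟨Fr_congr h (by omega) (by omega), Fr_congr (fun z hz => (h z hz).symm) (by omega)
    (by omega)⟩

theorem Vt_local (B : Oracle) (e : ℕ) (A A' : Oracle) (x : List Bool)
    (h : ∀ z : List Bool, z.length < (code (Rb b) e x).length → A z = A' z) :
    Vt c g b B e A x ↔ Vt c g b B e A' x := by
  unfold Vt
  rw [Fr_local c g b e A A' x h]

theorem Fi_code (B : Oracle) (e : ℕ) (x : List Bool) :
    Fi c g b B (code (Rb b) e x) = true ↔
      B (code (Rb b) e x) = true ∨ Fr c e (g e).1 (b e) (Fi c g b B) x := by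
  unfold Fi
  rw [Phi_code _ _ _ (Vt_local c g b B)]
  rfl

theorem Fi_not (B : Oracle) (y : List Bool) (h : y ∉ Tf c g b (Fi c g b B)) :
    Fi c g b B y = B y := by
  by_cases h1 : ∃ (e : ℕ) (x : List Bool), y = code (Rb b) e x
  · obtain ⟨e, x, rfl⟩ := h1
    have hW : ¬ Fr c e (g e).1 (b e) (Fi c g b B) x := fun h2 => h ⟨e, x, rfl, h2⟩
    have h2 := Fi_code c g b B e x
    rw [Bool.eq_iff_iff, h2]
    tauto
  · push Not at h1
    exact Phi_not _ _ _ _ h1

theorem Tf_local (A A' : Oracle) (y : List Bool)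
    (h : ∀ z : List Bool, z.length < y.length → A z = A' z) :
    y ∈ Tf c g b A ↔ y ∈ Tf c g b A' := by
  constructor
  · rintro ⟨e, x, rfl, hx⟩
    exact ⟨e, x, rfl, (Fr_local c g b e A A' x h).1 hx⟩
  · rintro ⟨e, x, rfl, hx⟩
    exact ⟨e, x, rfl, (Fr_local c g b e A A' x h).2 hx⟩

variable {c} {g} {b}

theorem pair_inj {x w x' w' : List Bool} (h : pairBits x w = pairBits x' w') : x = x' ∧ w = w' := by
  have h1 := congrArg unpair h
  rw [unpair_pairBits, unpair_pairBits, Prod.mk.injEq] at h1
  exact h1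

theorem inst_inj {q q' : List Bool} {l l' n n' : ℕ}
    (h : pairBits (pairBits q (List.replicate l true)) (List.replicate n true) =
      pairBits (pairBits q' (List.replicate l' true)) (List.replicate n' true)) :
    q = q' ∧ l = l' ∧ n = n' := by
  obtain ⟨h1, h2⟩ := pair_inj h
  obtain ⟨h3, h4⟩ := pair_inj h1
  refine ⟨h3, ?_, ?_⟩
  · simpa using congrArg List.length h4
  · simpa using congrArg List.length h2

/-- a warning comes in time -/
theorem warn_of_fst (B : Oracle) {e : ℕ} {q : List Bool} {n : ℕ}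
    (h : Fst c e (g e).1 (b e) (Fi c g b B) q n) : Warn (Rb b) e q n (Fi c g b B) := by
  intro l hl
  unfold cod
  rw [Fi_code]
  exact Or.inr ⟨q, l, n, rfl, hl, h⟩

/-- the warnings against sound programs come from `B` -/
theorem warn_of_sound (B : Oracle) {e : ℕ} {q : List Bool} {n : ℕ} (hS : Scale c e q n)
    (h : ∀ n, Scale c e q n → Snd (g e).1 (b e) (Fi c g b B) q n)
    (hw : Warn (Rb b) e q n (Fi c g b B)) : Warn (Rb b) e q n B := by
  intro l hl
  have h1 := hw l hl
  unfold cod at h1 ⊢
  rw [Fi_code] at h1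
  rcases h1 with h1 | ⟨q', l', n', heq, _, h2⟩
  · exact h1
  · obtain ⟨rfl, rfl, rfl⟩ := inst_inj heq
    exact absurd (h _ hS) h2.2.1

theorem snd_of_ok {B : Oracle} {e : ℕ} {G : List (List Bool)} {x : List Bool}
    (hG : ∀ q ∈ G, ∀ n, Scale c e q n → Snd (g e).1 (b e) (Fi c g b B) q n)
    (h : Ok c e (Rb b) G (Fi c g b B) x) :
    Snd (g e).1 (b e) (Fi c g b B) (xq x) (xl x).length := by
  classical
  obtain ⟨hS, h | h⟩ := h
  · exact hG _ h _ hS
  · by_contra hn
    apply h
    have hex : ∃ n, Scale c e (xq x) n ∧ ¬ Snd (g e).1 (b e) (Fi c g b B) (xq x) n := ⟨_, hS, hn⟩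
    refine ⟨Nat.find hex, Nat.find_min' hex ⟨hS, hn⟩, (Nat.find_spec hex).1, ?_⟩
    apply warn_of_fst
    refine ⟨(Nat.find_spec hex).1, (Nat.find_spec hex).2, fun n' h1 h2 => ?_⟩
    by_contra h3
    exact Nat.find_min hex h1 ⟨h2, h3⟩

theorem eq_of_run {M : Alg} {A : Oracle} {w z z' : List Bool} {m : ℕ}
    (h : M.run A w m [] = some z) (h' : M.out A w = some z') : z = z' := by
  unfold Alg.out at h'
  have h1 := run_mono m (max m (M.p.eval w.length)) [] (le_max_left _ _) h
  have h2 := run_mono (M.p.eval w.length) (max m (M.p.eval w.length)) [] (le_max_right _ _) h'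
  rw [h1] at h2
  exact Option.some.inj h2

/-- every algorithm with outputs in `L` is simulated -/
theorem key (B : Oracle) {e : ℕ} {L : Set (List Bool)} {G : List (List Bool)}
    (hG : ∀ q, (∀ n, Scale c e q n → Snd (g e).1 (b e) (Fi c g b B) q n) →
      (∃ n, Scale c e q n ∧ Warn (Rb b) e q n B) → q ∈ G)
    (hL : ∀ z, z ∈ L ↔ Acc (g e).1 (cut ((b e).eval z.length) (Fi c g b B)) z) (z₀ : List Bool)
    (M : Alg) (F : List Bool → List Bool) (hF : ∀ w, M.out (Fi c g b B) w = some (F w))
    (hFL : ∀ w, F w ∈ L) :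
    ∃ h : List Bool → List Bool, NPC.Poly h ∧
      ∀ w, pv c e (Rb b) G z₀ (Fi c g b B) (h w) = F w := by
  obtain ⟨ec, pc, hec⟩ := U_complete M.poly
  have hec' : IsCode ec M.D pc := hec
  obtain ⟨bb, hbb⟩ := M.next_length
  set T : Polynomial ℕ := M.p + bb + pc.comp (2 * Polynomial.X + 1 + M.p) with hT
  have hTe : ∀ n, T.eval n = M.p.eval n + bb.eval n + pc.eval (2 * n + 1 + M.p.eval n) := by
    intro n
    simp [hT, Polynomial.eval_comp]
  set q : List Bool := bits ec with hq
  set N : List Bool → ℕ := fun w => nxt (stp c e q) (T.eval w.length) with hN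
  have hNT : ∀ w, T.eval w.length ≤ N w := fun w => le_nxt (stp_pos c e q) _
  have hsnd : ∀ n, Snd (g e).1 (b e) (Fi c g b B) q n := by
    intro n w' m z hz
    have h1 := run_of_sim hec' m [] hz
    have h2 := eq_of_run h1 (hF w')
    rw [← hL, h2]
    exact hFL w'
  refine ⟨fun w => pairBits q (pairBits w (List.replicate (N w) true)), ?_, fun w => ?_⟩
  · have h1 : UPoly N := uPoly_nxt _ (UPoly.eval (UPoly.length NPC.Poly.id) T)
    exact poly_pairBits (NPC.Poly.const q) (poly_pairBits NPC.Poly.id (poly_rep h1))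
  · have e1 : xq (pairBits q (pairBits w (List.replicate (N w) true))) = q := by
      unfold xq
      rw [unpair_pairBits]
    have e2 : xw (pairBits q (pairBits w (List.replicate (N w) true))) = w := by
      unfold xw
      rw [unpair_pairBits, unpair_pairBits]
    have e3 : (xl (pairBits q (pairBits w (List.replicate (N w) true)))).length = N w := by
      unfold xl
      rw [unpair_pairBits, unpair_pairBits, List.length_replicate]
    have e4 : N w ≤ (pairBits q (pairBits w (List.replicate (N w) true))).length := by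
      rw [Pool.Agent.H620R2.Gauge.length_pairBits, Pool.Agent.H620R2.Gauge.length_pairBits,
        List.length_replicate]
      omega
    have hS : Scale c e q (N w) := scale_nxt _ _ _ _
    have hok : Ok c e (Rb b) G (Fi c g b B)
        (pairBits q (pairBits w (List.replicate (N w) true))) := by
      unfold Ok
      rw [e1, e3]
      refine ⟨hS, ?_⟩
      by_cases hqG : q ∈ G
      · exact Or.inl hqG
      · right
        rintro ⟨m, _, hm, hw⟩
        exact hqG (hG q (fun n _ => hsnd n)
          ⟨m, hm, warn_of_sound B hm (fun n _ => hsnd n) hw⟩)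
    unfold pv
    rw [if_pos hok, e1, e2, e3]
    have h3 := hNT w
    rw [hTe] at h3
    have h4 : sim (Fi c g b B) q w (N w) (M.p.eval w.length) [] = some (F w) :=
      sim_of_run hec' hbb (by omega) (by omega) (by omega) _ [] (by simp) (hF w)
    have h5 := sim_mono _ ((pairBits q (pairBits w (List.replicate (N w) true))).length + 2) []
      (by omega) h4
    rw [h5, Option.getD_some]

theorem opt (hg : Function.Surjective g)
    (hb : ∀ (e : ℕ) (x a : List Bool), a.length ≤ (g e).2.eval x.length →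
      ((g e).1.act (pairBits x a)).length ≤ (b e).eval x.length)
    (B : Oracle) (hB : ∀ e : ℕ, {q : List Bool | ∃ n, Scale c e q n ∧
      Warn (Rb b) e q n B}.Finite)
    (L : Set (List Bool)) (hne : L.Nonempty) (hL : IsPSPACE (Fi c g b B) L) :
    ∃ P, IsPOptimal (Fi c g b B) L P := by
  classical
  obtain ⟨M, p, hM⟩ := hL
  obtain ⟨e, he⟩ := hg (M, p)
  obtain ⟨z₀, hz₀⟩ := hne
  have hbe := hb e
  have hmem : ∀ z, z ∈ L ↔ Acc (g e).1 (cut ((b e).eval z.length) (Fi c g b B)) z := by
    rw [he] at hbe ⊢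
    exact mem_iff hbe hM
  set G : List (List Bool) := ((hB e).toFinset.filter (fun q =>
    ∀ n, Scale c e q n → Snd (g e).1 (b e) (Fi c g b B) q n)).toList with hGdef
  have hG1 : ∀ q ∈ G, ∀ n, Scale c e q n → Snd (g e).1 (b e) (Fi c g b B) q n := by
    intro q hq
    rw [hGdef, Finset.mem_toList, Finset.mem_filter] at hq
    exact hq.2
  have hG2 : ∀ q, (∀ n, Scale c e q n → Snd (g e).1 (b e) (Fi c g b B) q n) →
      (∃ n, Scale c e q n ∧ Warn (Rb b) e q n B) → q ∈ G := by
    intro q h1 h2
    rw [hGdef, Finset.mem_toList, Finset.mem_filter, Set.Finite.mem_toFinset]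
    exact ⟨h2, h1⟩
  have hk := fun (M : Alg) (F : List Bool → List Bool) => key B hG2 hmem z₀ M F
  refine ⟨pv c e (Rb b) G z₀ (Fi c g b B), ⟨isFP_pv _ _ _ _ _ _, ?_⟩, ?_⟩
  · apply Set.Subset.antisymm
    · rintro _ ⟨x, rfl⟩
      unfold pv
      split_ifs with h
      · rcases hs : sim (Fi c g b B) (xq x) (xw x) (xl x).length (x.length + 2) [] with _ | z
        · simpa using hz₀
        · rw [Option.getD_some]
          exact (hmem z).2 (snd_of_ok hG1 h _ _ _ hs)
      · exact hz₀
    · intro z hz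
      obtain ⟨Mz, hMz⟩ := IsFP.of_poly (A := Fi c g b B) (F := fun _ => z) (NPC.Poly.const z)
      obtain ⟨h, _, h2⟩ := hk Mz (fun _ => z) hMz fun _ => hz
      exact ⟨_, h2 []⟩
  · rintro Q ⟨⟨MQ, hMQ⟩, hQ⟩
    obtain ⟨h, h1, h2⟩ := hk MQ Q hMQ fun w => by
      rw [← hQ]
      exact ⟨w, rfl⟩
    exact ⟨h, IsFP.of_poly h1, h2⟩

end Pool.Agent.J4H65.OP
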