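import Pool.Agent.H671R2.PolyAuto
import Pool.Agent.NPC.Num

/-!
# The scales `2 ^ (2 ^ (s j))`
-/

set_option autoImplicit false

namespace Pool.Agent.J4H65.OP

open Pool.Agent.NPC

theorem bits_two_pow (m : ℕ) : Nat.bits (2 ^ m) = List.replicate m false ++ [true] := by
  induction m with
  | zero => simp
  | succ m ih =>
    have h1 : 2 ^ (m + 1) = 2 * 2 ^ m := by ring
    rw [h1, Nat.bit0_bits _ (by positivity), ih]
    simp [List.replicate_succ]

theorem poly_two_pow {α : Type} [TEnc α] {m : α → ℕ} (hm : UPoly m) :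
    Poly (fun a => 2 ^ m a) := by
  refine Poly.of_natBits ?_
  have h1 : Poly (fun a => List.replicate (m a) false) :=
    (NPC.Poly.map (F := fun _ _ => false) hm (NPC.Poly.const false)).congr fun a => by simp
  exact (Poly.append h1 (NPC.Poly.const [true])).congr fun a => (bits_two_pow (m a)).symm

/-- the binary logarithm -/
def lg (n : ℕ) : ℕ := n.bits.tail.length

theorem lg_two_pow (m : ℕ) : lg (2 ^ m) = m := by
  unfold lg
  rw [bits_two_pow]
  cases m with
  | zero => simp
  | succ m => simp [List.replicate_succ]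

theorem uPoly_lg {α : Type} [TEnc α] {n : α → ℕ} (hn : Poly n) : UPoly (fun a => lg (n a)) :=
  UPoly.length (Poly.tail (Poly.natBits hn))

/-- the step of the scales -/
def stp (c e : ℕ) (q : List Bool) : ℕ := 2 ^ (2 ^ (c * (e + q.length + 1)))

theorem stp_pos (c e : ℕ) (q : List Bool) : 0 < stp c e q := by
  unfold stp
  positivity

/-- `n` is a scale -/
def Scale (c e : ℕ) (q : List Bool) (n : ℕ) : Prop := ∃ j, 0 < j ∧ n = 2 ^ (2 ^ (stp c e q * j))

/-- the test for scales -/
def scB (c e : ℕ) (q : List Bool) (n : ℕ) : Bool :=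
  decide (n = 2 ^ lg n) && (decide (lg n = 2 ^ lg (lg n)) &&
    (decide (0 < lg (lg n)) &&
      decide (lg (lg n) % 2 ^ (min (2 ^ (c * (e + q.length + 1))) (lg (lg n))) = 0)))

theorem mod_iff {u i : ℕ} (hi : 0 < i) : i % 2 ^ (min u i) = 0 ↔ i % 2 ^ u = 0 := by
  rcases le_total u i with h | h
  · rw [min_eq_left h]
  · rw [min_eq_right h]
    have h1 : i < 2 ^ i := Nat.lt_two_pow_self
    have h2 : 2 ^ i ≤ 2 ^ u := Nat.pow_le_pow_right (by norm_num) h
    rw [Nat.mod_eq_of_lt h1, Nat.mod_eq_of_lt (by omega)]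

theorem scB_iff (c e : ℕ) (q : List Bool) (n : ℕ) :
    scB c e q n = true ↔ Scale c e q n := by
  unfold scB Scale
  simp only [Bool.and_eq_true, decide_eq_true_eq]
  constructor
  · rintro ⟨h1, h2, h3, h4⟩
    rw [mod_iff h3] at h4
    change lg (lg n) % stp c e q = 0 at h4
    obtain ⟨j, hj⟩ := Nat.dvd_of_mod_eq_zero h4
    refine ⟨j, ?_, ?_⟩
    · rcases Nat.eq_zero_or_pos j with h | h
      · rw [h, Nat.mul_zero] at hj
        omega
      · exact h
    · rw [← hj, ← h2]
      exact h1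
  · rintro ⟨j, hj, rfl⟩
    rw [lg_two_pow, lg_two_pow]
    have h0 := Nat.mul_pos (stp_pos c e q) hj
    refine ⟨rfl, rfl, h0, ?_⟩
    rw [mod_iff h0]
    exact Nat.mul_mod_right _ _

theorem poly_scB (c e : ℕ) {α : Type} [TEnc α] {q : α → List Bool} {n : α → ℕ} (hq : Poly q)
    (hn : Poly n) : Poly (fun a => scB c e (q a) (n a)) := by
  have h1 : UPoly (fun a => lg (n a)) := uPoly_lg hn
  have h2 : UPoly (fun a => lg (lg (n a))) := uPoly_lg h1.toPoly
  have h3 : Poly (fun a => 2 ^ (c * (e + (q a).length + 1))) :=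
    poly_two_pow (UPoly.mul (UPoly.const c) (UPoly.add (UPoly.add (UPoly.const e)
      (UPoly.length hq)) (UPoly.const 1)))
  have h4 : UPoly (fun a => min (2 ^ (c * (e + (q a).length + 1))) (lg (lg (n a)))) :=
    UPoly.of_le (Poly.min h3 h2.toPoly) h2 fun a => min_le_right _ _
  unfold scB
  exact Poly.and (Poly.dec_eq hn (poly_two_pow h1)) (Poly.and (Poly.dec_eq h1.toPoly
    (poly_two_pow h2)) (Poly.and (Poly.decide_lt (NPC.Poly.const 0) h2.toPoly)
      (Poly.dec_eq (Poly.mod h2.toPoly (poly_two_pow h4)) (NPC.Poly.const 0))))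

/-- the number of the bits of a warning -/
def wd (q : List Bool) (n : ℕ) : ℕ := 2 * (lg (lg n)).size + 2 * q.length

theorem uPoly_size {α : Type} [TEnc α] {n : α → ℕ} (hn : Poly n) :
    UPoly (fun a => (n a).size) :=
  (UPoly.length (Poly.natBits hn)).congr fun a => by
    show List.replicate (n a).bits.length () = List.replicate (n a).size ()
    rw [Nat.size_eq_bits_len]

theorem uPoly_wd {α : Type} [TEnc α] {q : α → List Bool} {n : α → ℕ} (hq : Poly q)
    (hn : Poly n) : UPoly (fun a => wd (q a) (n a)) := by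
  have h1 : UPoly (fun a => lg (n a)) := uPoly_lg hn
  have h2 : UPoly (fun a => lg (lg (n a))) := uPoly_lg h1.toPoly
  exact UPoly.add (UPoly.mul (UPoly.const 2) (uPoly_size h2.toPoly))
    (UPoly.mul (UPoly.const 2) (UPoly.length hq))

/-- the first scale which is large enough (up to a polynomial) -/
def nxt (s t : ℕ) : ℕ := 2 ^ (2 ^ (s * (t.size.size / s + 1)))

theorem le_nxt {s : ℕ} (hs : 0 < s) (t : ℕ) : t ≤ nxt s t := by
  unfold nxt
  have h1 : t.size.size < s * (t.size.size / s + 1) := by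
    have h2 := Nat.lt_div_mul_add (a := t.size.size) hs
    calc t.size.size < t.size.size / s * s + s := h2
      _ = s * (t.size.size / s + 1) := by ring
  have h2 : t.size < 2 ^ t.size.size := Nat.lt_size_self _
  have h3 : t < 2 ^ t.size := Nat.lt_size_self _
  calc t ≤ 2 ^ t.size := h3.le
    _ ≤ 2 ^ (2 ^ t.size.size) := Nat.pow_le_pow_right (by norm_num) h2.le
    _ ≤ _ := Nat.pow_le_pow_right (by norm_num) (Nat.pow_le_pow_right (by norm_num) h1.le)

theorem scale_nxt (c e : ℕ) (q : List Bool) (t : ℕ) : Scale c e q (nxt (stp c e q) t) :=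
  ⟨_, Nat.succ_pos _, rfl⟩

theorem two_pow_size (t : ℕ) : 2 ^ t.size ≤ 2 * t + 1 := by
  rcases Nat.eq_zero_or_pos t with h | h
  · subst h
    simp
  · have h1 : 0 < t.size := Nat.size_pos.2 h
    have h2 : 2 ^ (t.size - 1) ≤ t := by
      rw [← Nat.lt_size]
      omega
    calc 2 ^ t.size = 2 * 2 ^ (t.size - 1) := by
          rw [← pow_succ']
          congr 1
          omega
      _ ≤ 2 * t + 1 := by omega

theorem uPoly_nxt (s : ℕ) {α : Type} [TEnc α] {t : α → ℕ} (ht : UPoly t) :
    UPoly (fun a => nxt s (t a)) := by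
  have h1 : UPoly (fun a => (t a).size) := uPoly_size ht.toPoly
  have h2 : UPoly (fun a => (t a).size.size) := uPoly_size h1.toPoly
  have h3 : UPoly (fun a => (t a).size.size / s) :=
    UPoly.of_le (Poly.div h2.toPoly (NPC.Poly.const s)) h2 fun a => Nat.div_le_self _ _
  have h4 : UPoly (fun a => s * ((t a).size.size / s + 1)) :=
    UPoly.mul (UPoly.const s) (UPoly.add h3 (UPoly.const 1))
  have hle : ∀ a, s * ((t a).size.size / s + 1) ≤ (t a).size.size + s := by
    intro a
    have := Nat.mul_div_le (t a).size.size s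
    calc s * ((t a).size.size / s + 1) = s * ((t a).size.size / s) + s := by ring
      _ ≤ _ := by omega
  have hle2 : ∀ a, 2 ^ (s * ((t a).size.size / s + 1)) ≤ 2 ^ s * (2 * (t a).size + 1) := by
    intro a
    calc 2 ^ (s * ((t a).size.size / s + 1)) ≤ 2 ^ ((t a).size.size + s) :=
          Nat.pow_le_pow_right (by norm_num) (hle a)
      _ = 2 ^ s * 2 ^ (t a).size.size := by rw [pow_add]; ring
      _ ≤ _ := Nat.mul_le_mul_left _ (two_pow_size _)
  have h5 : UPoly (fun a => 2 ^ (s * ((t a).size.size / s + 1))) :=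
    UPoly.of_le (poly_two_pow h4) (UPoly.mul (UPoly.const (2 ^ s))
      (UPoly.add (UPoly.mul (UPoly.const 2) h1) (UPoly.const 1))) hle2
  refine UPoly.of_le (poly_two_pow h5)
    (UPoly.eval ht ((2 * (2 * Polynomial.X + 1) ^ 2) ^ (2 ^ s))) fun a => ?_
  have h6 : (Polynomial.eval (t a) ((2 * (2 * Polynomial.X + 1) ^ 2) ^ (2 ^ s)) : ℕ) =
      (2 * (2 * t a + 1) ^ 2) ^ (2 ^ s) := by
    simp
  rw [h6]
  calc 2 ^ (2 ^ (s * ((t a).size.size / s + 1))) ≤ 2 ^ (2 ^ s * (2 * (t a).size + 1)) :=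
        Nat.pow_le_pow_right (by norm_num) (hle2 a)
    _ = (2 * (2 ^ (t a).size) ^ 2) ^ (2 ^ s) := by
        rw [← pow_mul, ← pow_succ', ← pow_mul]
        congr 1
        ring
    _ ≤ _ := by
        apply Nat.pow_le_pow_left
        apply Nat.mul_le_mul_left
        exact Nat.pow_le_pow_left (two_pow_size _) 2

end Pool.Agent.J4H65.OP
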