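import Pool.Agent.J4H65.OP.Scale
import Pool.Agent.H660R2.NX.UnivSet
import Pool.Agent.H620R2.Gauge.A1

/-!
# The universal simulation of oracle algorithms with a clock
-/

set_option autoImplicit false

namespace Pool.Agent.J4H65.OP

open Pool.Agent.NPC Pool.Agent.H620R2.Gauge Pool.Agent.H660R2.NX

attribute [local irreducible] unpair

/-- The next action of the program with code `q` on input `w`, with clock `n`, after the answers
`a`; the empty string for failure. -/
def sact (q w : List Bool) (n : ℕ) (a : List Bool) : List Bool :=
  if n < a.length then [] else
    (unbits Code q).elim [] (fun e => (U e (pairBits w a) n).elim [] (fun r =>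
      if r = [] then [true] else if r.length ≤ n then r else []))

/-- The output of the simulation, within `m` further rounds. -/
def sim (A : Oracle) (q w : List Bool) (n : ℕ) : ℕ → List Bool → Option (List Bool)
  | 0, _ => none
  | m + 1, a => match sact q w n a with
    | [] => none
    | true :: z => some z
    | false :: s => sim A q w n m (a ++ [A s])

theorem poly_sact {α : Type} [TEnc α] {q w l a : α → List Bool} (hq : NPC.Poly q)
    (hw : NPC.Poly w) (hl : NPC.Poly l) (ha : NPC.Poly a) :
    NPC.Poly (fun x => sact (q x) (w x) (l x).length (a x)) := by
  unfold sact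
  refine NPC.Poly.ite (NPC.Poly.decide_lt (NPC.Poly.length hl) (NPC.Poly.length ha))
    (NPC.Poly.const []) ?_
  have h0 : NPC.Poly (unbits Code) := poly_unbits
  refine Poly.optElim (h0.comp hq) (NPC.Poly.const []) ?_
  have h1 : NPC.Poly (fun p : α × Code =>
      U p.2 (pairBits (w p.1) (a p.1)) (l p.1).length) := by
    refine (poly_U.comp (f := fun p : α × Code =>
      (p.2, pairBits (w p.1) (a p.1), (l p.1).map (fun _ => ()))) (by fun_prop)).congr fun p => ?_
    simp
  refine Poly.optElim h1 (NPC.Poly.const []) ?_
  have h2 : NPC.Poly (fun p : (α × Code) × List Bool => p.2) := NPC.Poly.snd NPC.Poly.id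
  have h3 : NPC.Poly (fun p : (α × Code) × List Bool => (l p.1.1).length) :=
    NPC.Poly.length (hl.comp (NPC.Poly.fst (NPC.Poly.fst NPC.Poly.id)))
  exact NPC.Poly.ite (Poly.dec_eq h2 (NPC.Poly.const [])) (NPC.Poly.const [true])
    (NPC.Poly.ite (NPC.Poly.decide_le (NPC.Poly.length h2) h3) h2 (NPC.Poly.const []))

theorem sact_length (q w : List Bool) (n : ℕ) (a : List Bool) :
    (sact q w n a).length ≤ n ∨ sact q w n a = [true] := by
  unfold sact
  split_ifs with h
  · simp
  · cases unbits Code q with
    | none => simp
    | some e =>
      simp only [Option.elim_some]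
      cases U e (pairBits w a) n with
      | none => simp
      | some r =>
        simp only [Option.elim_some]
        split_ifs with h1 h2
        · simp
        · exact Or.inl h2
        · simp

theorem sact_ne {q w : List Bool} {n : ℕ} {a : List Bool} (h : sact q w n a ≠ []) :
    a.length ≤ n := by
  by_contra h1
  apply h
  unfold sact
  rw [if_pos (by omega)]

theorem sim_congr {A A' : Oracle} {q w : List Bool} {n : ℕ}
    (h : ∀ s : List Bool, s.length ≤ n → A' s = A s) :
    ∀ (m : ℕ) (a : List Bool), sim A' q w n m a = sim A q w n m a
  | 0, _ => rfl
  | m + 1, a => by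
    have h1 := sact_length q w n a
    unfold sim
    rcases hs : sact q w n a with _ | ⟨b, s⟩
    · rfl
    · cases b with
      | true => rfl
      | false =>
        rw [hs] at h1
        rcases h1 with h1 | h1
        · rw [List.length_cons] at h1
          simp only
          rw [h s (by omega), sim_congr h m]
        · simp at h1

theorem sim_length {A : Oracle} {q w : List Bool} {n : ℕ} {z : List Bool} :
    ∀ (m : ℕ) (a : List Bool), sim A q w n m a = some z → z.length ≤ n
  | 0, _, h => by simp [sim] at h
  | m + 1, a, h => by
    have h1 := sact_length q w n a
    unfold sim at h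
    rcases hs : sact q w n a with _ | ⟨b, s⟩
    · rw [hs] at h
      simp at h
    · rw [hs] at h
      cases b with
      | true =>
        simp only [Option.some.injEq] at h
        subst h
        rw [hs] at h1
        rcases h1 with h1 | h1
        · rw [List.length_cons] at h1
          omega
        · simp only [List.cons.injEq, true_and] at h1
          subst h1
          simp
      | false => exact sim_length m _ h

theorem sim_mono {A : Oracle} {q w : List Bool} {n : ℕ} {z : List Bool} :
    ∀ (m m' : ℕ) (a : List Bool), m ≤ m' → sim A q w n m a = some z → sim A q w n m' a = some z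
  | 0, _, _, _, h => by simp [sim] at h
  | m + 1, 0, _, hm, _ => by omega
  | m + 1, m' + 1, a, hm, h => by
    unfold sim at h ⊢
    rcases hs : sact q w n a with _ | ⟨b, s⟩
    · rw [hs] at h
      simp at h
    · rw [hs] at h
      cases b with
      | true => exact h
      | false => exact sim_mono m m' _ (by omega) h

theorem run_mono {M : Alg} {A : Oracle} {x z : List Bool} :
    ∀ (m m' : ℕ) (a : List Bool), m ≤ m' → M.run A x m a = some z → M.run A x m' a = some z
  | 0, _, _, _, h => by simp [Alg.run] at h
  | m + 1, 0, _, hm, _ => by omega
  | m + 1, m' + 1, a, hm, h => by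
    unfold Alg.run at h ⊢
    rcases hs : M.D (pairBits x a) with _ | ⟨b, s⟩
    · rw [hs] at h
      exact h
    · rw [hs] at h
      cases b with
      | true => exact h
      | false => exact run_mono m m' _ (by omega) h

/-- the simulation is right -/
theorem run_of_sim {M : Alg} {e : Code} {p : Polynomial ℕ} (he : IsCode e M.D p) {A : Oracle}
    {w : List Bool} {n : ℕ} {z : List Bool} :
    ∀ (m : ℕ) (a : List Bool), sim A (bits e) w n m a = some z → M.run A w m a = some z
  | 0, _, h => by simp [sim] at h
  | m + 1, a, h => by
    unfold sim at h
    unfold Alg.run
    rcases hs : sact (bits e) w n a with _ | ⟨b, s⟩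
    · rw [hs] at h
      simp at h
    · have hle := sact_ne (q := bits e) (w := w) (n := n) (a := a) (by rw [hs]; simp)
      have h1 : sact (bits e) w n a = (U e (pairBits w a) n).elim [] (fun r =>
          if r = [] then [true] else if r.length ≤ n then r else []) := by
        unfold sact
        rw [if_neg (by omega), unbits_bits]
        rfl
      rw [hs] at h1
      rcases hU : U e (pairBits w a) n with _ | r
      · rw [hU] at h1
        simp at h1
      · rw [hU] at h1
        simp only [Option.elim_some] at h1
        have hr := he.eq hU
        rw [← hr]
        by_cases h2 : r = []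
        · rw [if_pos h2] at h1
          rw [h2]
          simp only [List.cons.injEq] at h1
          obtain ⟨rfl, rfl⟩ := h1
          rw [hs] at h
          simpa using h
        · rw [if_neg h2] at h1
          by_cases h3 : r.length ≤ n
          · rw [if_pos h3] at h1
            rw [← h1]
            rw [hs] at h
            cases b with
            | true => exact h
            | false => exact run_of_sim he m _ h
          · rw [if_neg h3] at h1
            simp at h1

/-- the simulation with a large clock -/
theorem sim_of_run {M : Alg} {e : Code} {p b : Polynomial ℕ} (he : IsCode e M.D p)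
    (hb : ∀ x a : List Bool, a.length ≤ M.p.eval x.length →
      (M.D (pairBits x a)).length ≤ b.eval x.length) {A : Oracle} {w : List Bool} {n : ℕ}
    (h1 : M.p.eval w.length ≤ n) (h2 : b.eval w.length ≤ n)
    (h3 : p.eval (2 * w.length + 1 + M.p.eval w.length) ≤ n) {z : List Bool} :
    ∀ (m : ℕ) (a : List Bool), a.length + m ≤ M.p.eval w.length →
      M.run A w m a = some z → sim A (bits e) w n m a = some z
  | 0, _, _, h => by simp [Alg.run] at h
  | m + 1, a, ha, h => by
    have hU : U e (pairBits w a) n = some (M.D (pairBits w a)) := by
      apply he
      refine le_trans (eval_mono _ ?_) h3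
      rw [Pool.Agent.H620R2.Gauge.length_pairBits]
      omega
    have hs : sact (bits e) w n a = if M.D (pairBits w a) = [] then [true] else
        M.D (pairBits w a) := by
      unfold sact
      rw [if_neg (by omega), unbits_bits, Option.elim_some, hU, Option.elim_some]
      have h4 := (hb w a (by omega)).trans h2
      rw [if_pos h4]
    unfold sim
    unfold Alg.run at h
    rw [hs]
    rcases hD : M.D (pairBits w a) with _ | ⟨b', s⟩
    · rw [hD] at h
      simpa using h
    · rw [hD] at h
      rw [if_neg (by simp)]
      cases b' with
      | true => exact h
      | false =>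
        exact sim_of_run he hb h1 h2 h3 m _ (by
          rw [List.length_append, List.length_singleton]; omega) h

end Pool.Agent.J4H65.OP
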