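import Pool.Agent.J4H65.OP.Sim
import Pool.Agent.J4H65.OP.Defs
import Pool.Agent.H620R2.Gauge.C
import Pool.Agent.H620R2.GaugeR.Seq

/-!
# The proof system: the oracle warns against unsound programs
-/

set_option autoImplicit false

namespace Pool.Agent.J4H65.OP

open Pool.Agent.NPC Pool.Agent.H620R2.Gauge Pool.Agent.H620R2.Gauge.CC Pool.Agent.H660R2.NX

/-- the program -/
def xq (x : List Bool) : List Bool := (unpair x).1

/-- the input of the program -/
def xw (x : List Bool) : List Bool := (unpair (unpair x).2).1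

/-- the clock -/
def xl (x : List Bool) : List Bool := (unpair (unpair x).2).2

/-- the code string number `l` of the warning against the program `q` at the scale `n` -/
def cod (R : ℕ → Polynomial ℕ) (e : ℕ) (q : List Bool) (l n : ℕ) : List Bool :=
  code R e (pairBits (pairBits q (List.replicate l true)) (List.replicate n true))

/-- there is a warning against the program `q` at the scale `n` -/
def Warn (R : ℕ → Polynomial ℕ) (e : ℕ) (q : List Bool) (n : ℕ) (A : Oracle) : Prop :=
  ∀ l < wd q n, A (cod R e q l n) = true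

/-- the scales up to the clock -/
def scs (c e : ℕ) (x : List Bool) : List ℕ :=
  (List.range ((xl x).length + 1)).filter (fun m => scB c e (xq x) m)

/-- the numbers of the code strings -/
def prs (c e : ℕ) (x : List Bool) : List (ℕ × ℕ) :=
  (scs c e x).flatMap (fun m => (List.range (wd (xq x) m)).map (fun l => (l, m)))

/-- the code strings -/
def cds (R : ℕ → Polynomial ℕ) (e : ℕ) (x : List Bool) (p : ℕ × ℕ) : List Bool :=
  cod R e (xq x) (min p.1 (wd (xq x) (min p.2 (xl x).length))) (min p.2 (xl x).length)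

/-- evaluation of the answers -/
def wev (c e : ℕ) (x ans : List Bool) : Bool :=
  (scs c e x).any (fun m => ((prs c e x).zip ans).all (fun p => !(decide (p.1.2 = m)) || p.2))

theorem poly_xq : NPC.Poly xq := NPC.Poly.fst poly_unpair

theorem poly_xw : NPC.Poly xw := NPC.Poly.fst (poly_unpair.comp (NPC.Poly.snd poly_unpair))

theorem poly_xl : NPC.Poly xl := NPC.Poly.snd (poly_unpair.comp (NPC.Poly.snd poly_unpair))

theorem poly_scs (c e : ℕ) : NPC.Poly (scs c e) := by
  unfold scs
  exact NPC.Poly.filter (p := fun x m => scB c e (xq x) m)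
    (UPoly.add (UPoly.length poly_xl) (UPoly.const 1)).range
    (poly_scB c e (poly_xq.comp (NPC.Poly.fst NPC.Poly.id)) (NPC.Poly.snd NPC.Poly.id))

theorem poly_prs (c e : ℕ) : NPC.Poly (prs c e) := by
  unfold prs
  refine NPC.Poly.flatMap (F := fun x m => (List.range (wd (xq x) m)).map (fun l => (l, m)))
    (poly_scs c e) ?_
  have h1 : NPC.Poly (fun p : List Bool × ℕ => List.range (wd (xq p.1) p.2)) :=
    (uPoly_wd (poly_xq.comp (NPC.Poly.fst NPC.Poly.id)) (NPC.Poly.snd NPC.Poly.id)).range
  exact NPC.Poly.map (F := fun (p : List Bool × ℕ) l => (l, p.2)) h1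
    (NPC.Poly.pair (NPC.Poly.snd NPC.Poly.id) (NPC.Poly.snd (NPC.Poly.fst NPC.Poly.id)))

theorem poly_rep {α : Type} [TEnc α] {n : α → ℕ} (hn : UPoly n) :
    NPC.Poly (fun a => List.replicate (n a) true) :=
  (NPC.Poly.map (F := fun _ _ => true) hn (NPC.Poly.const true)).congr fun y => by simp

theorem poly_cod (R : ℕ → Polynomial ℕ) (e : ℕ) {α : Type} [TEnc α] {q : α → List Bool}
    {l n : α → ℕ} (hq : NPC.Poly q) (hl : UPoly l) (hn : UPoly n) :
    NPC.Poly (fun a => cod R e (q a) (l a) (n a)) :=
  (poly_code R e).comp (poly_pairBits (poly_pairBits hq (poly_rep hl)) (poly_rep hn))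

theorem poly_cds (R : ℕ → Polynomial ℕ) (e : ℕ) :
    NPC.Poly (fun a : List Bool × (ℕ × ℕ) => cds R e a.1 a.2) := by
  unfold cds
  have hq : NPC.Poly (fun a : List Bool × (ℕ × ℕ) => xq a.1) :=
    poly_xq.comp (NPC.Poly.fst NPC.Poly.id)
  have hl : UPoly (fun a : List Bool × (ℕ × ℕ) => (xl a.1).length) :=
    UPoly.length (poly_xl.comp (NPC.Poly.fst NPC.Poly.id))
  have hp : NPC.Poly (fun a : List Bool × (ℕ × ℕ) => a.2) := NPC.Poly.snd NPC.Poly.id
  have h1 : UPoly (fun a : List Bool × (ℕ × ℕ) => min a.2.2 (xl a.1).length) :=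
    UPoly.of_le (Poly.min (NPC.Poly.snd hp) hl.toPoly) hl fun a => min_le_right _ _
  have h2 : UPoly (fun a : List Bool × (ℕ × ℕ) => wd (xq a.1) (min a.2.2 (xl a.1).length)) :=
    uPoly_wd hq h1.toPoly
  have h3 : UPoly (fun a : List Bool × (ℕ × ℕ) =>
      min a.2.1 (wd (xq a.1) (min a.2.2 (xl a.1).length))) :=
    UPoly.of_le (Poly.min (NPC.Poly.fst hp) h2.toPoly) h2 fun a => min_le_right _ _
  exact poly_cod R e hq h3 h1

theorem poly_wev (c e : ℕ) :
    NPC.Poly (fun a : List Bool × List Bool => wev c e a.1 a.2) := by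
  unfold wev
  have h1 : NPC.Poly (fun a : List Bool × List Bool => scs c e a.1) :=
    (poly_scs c e).comp (NPC.Poly.fst NPC.Poly.id)
  have h2 : NPC.Poly (fun a : List Bool × List Bool => (prs c e a.1).zip a.2) :=
    NPC.Poly.zip ((poly_prs c e).comp (NPC.Poly.fst NPC.Poly.id)) (NPC.Poly.snd NPC.Poly.id)
  refine NPC.Poly.any (p := fun (a : List Bool × List Bool) m =>
    ((prs c e a.1).zip a.2).all (fun p => !(decide (p.1.2 = m)) || p.2)) h1 ?_
  refine NPC.Poly.all (l := fun b : (List Bool × List Bool) × ℕ => (prs c e b.1.1).zip b.1.2)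
    (p := fun (b : (List Bool × List Bool) × ℕ) (p : (ℕ × ℕ) × Bool) =>
      !(decide (p.1.2 = b.2)) || p.2) (h2.comp (NPC.Poly.fst NPC.Poly.id)) ?_
  have e1 : NPC.Poly (fun b : ((List Bool × List Bool) × ℕ) × ((ℕ × ℕ) × Bool) => b.2.1.2) :=
    NPC.Poly.snd (NPC.Poly.fst (NPC.Poly.snd NPC.Poly.id))
  have e2 : NPC.Poly (fun b : ((List Bool × List Bool) × ℕ) × ((ℕ × ℕ) × Bool) => b.1.2) :=
    NPC.Poly.snd (NPC.Poly.fst NPC.Poly.id)
  have e3 : NPC.Poly (fun b : ((List Bool × List Bool) × ℕ) × ((ℕ × ℕ) × Bool) => b.2.2) :=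
    NPC.Poly.snd (NPC.Poly.snd NPC.Poly.id)
  exact NPC.Poly.or (NPC.Poly.not (Poly.dec_eq e1 e2)) e3

theorem mem_scs {c e : ℕ} {x : List Bool} {m : ℕ} :
    m ∈ scs c e x ↔ m ≤ (xl x).length ∧ Scale c e (xq x) m := by
  unfold scs
  rw [List.mem_filter, List.mem_range, scB_iff]
  exact and_congr_left fun _ => Nat.lt_succ_iff

theorem wev_iff (c e : ℕ) (R : ℕ → Polynomial ℕ) (x : List Bool) (A : Oracle) :
    wev c e x (((prs c e x).map (cds R e x)).map A) = true ↔
      ∃ m ≤ (xl x).length, Scale c e (xq x) m ∧ Warn R e (xq x) m A := by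
  have h1 : (prs c e x).zip (((prs c e x).map (cds R e x)).map A) =
      (prs c e x).map (fun p => (p, A (cds R e x p))) := by
    rw [List.map_map]
    have h0 := List.zip_map' (f := fun p : ℕ × ℕ => p) (g := fun p => A (cds R e x p))
      (l := prs c e x)
    rw [List.map_id'] at h0
    exact h0
  unfold wev
  rw [h1]
  simp only [List.any_eq_true, List.all_eq_true, List.mem_map, mem_scs]
  constructor
  · rintro ⟨m, ⟨hm, hS⟩, h⟩
    refine ⟨m, hm, hS, fun l hl => ?_⟩
    have hp : (l, m) ∈ prs c e x := by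
      unfold prs
      rw [List.mem_flatMap]
      refine ⟨m, mem_scs.2 ⟨hm, hS⟩, ?_⟩
      rw [List.mem_map]
      exact ⟨l, List.mem_range.2 hl, rfl⟩
    have h2 := h _ ⟨(l, m), hp, rfl⟩
    simp only [decide_true, Bool.not_true, Bool.false_or] at h2
    unfold cds at h2
    simp only at h2
    rw [min_eq_left hm, min_eq_left hl.le] at h2
    exact h2
  · rintro ⟨m, hm, hS, h⟩
    refine ⟨m, ⟨hm, hS⟩, ?_⟩
    rintro _ ⟨⟨l, m'⟩, hp, rfl⟩
    by_cases hmm : m' = m
    · subst hmm
      have hl : l < wd (xq x) m' := by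
        unfold prs at hp
        rw [List.mem_flatMap] at hp
        obtain ⟨m'', _, hp⟩ := hp
        rw [List.mem_map] at hp
        obtain ⟨l', hl', heq⟩ := hp
        rw [Prod.mk.injEq] at heq
        obtain ⟨rfl, rfl⟩ := heq
        exact List.mem_range.1 hl'
      simp only [decide_true, Bool.not_true, Bool.false_or]
      unfold cds
      simp only
      rw [min_eq_left hm, min_eq_left hl.le]
      exact h l hl
    · simp [hmm]

/-! ### The simulation as an oracle algorithm -/

/-- the next action -/
def sd (x a : List Bool) : List Bool :=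
  if sact (xq x) (xw x) (xl x).length a = [] then [true]
  else if (sact (xq x) (xw x) (xl x).length a).head? = some true then
    true :: sact (xq x) (xw x) (xl x).length a
  else sact (xq x) (xw x) (xl x).length a

theorem poly_sd : NPC.Poly (fun y : List Bool => sd (unpair y).1 (unpair y).2) := by
  have hx : NPC.Poly (fun y : List Bool => (unpair y).1) := NPC.Poly.fst poly_unpair
  have ha : NPC.Poly (fun y : List Bool => (unpair y).2) := NPC.Poly.snd poly_unpair
  have hs := poly_sact (poly_xq.comp hx) (poly_xw.comp hx) (poly_xl.comp hx) ha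
  unfold sd
  exact NPC.Poly.ite (Poly.dec_eq hs (NPC.Poly.const [])) (NPC.Poly.const [true])
    (NPC.Poly.ite (Poly.dec_eq (NPC.Poly.head? hs) (NPC.Poly.const (some true)))
      (NPC.Poly.cons (NPC.Poly.const true) hs) hs)

/-- the algorithm -/
noncomputable def ms : Alg :=
  ⟨fun y => sd (unpair y).1 (unpair y).2, Pool.Agent.H622R2.polyTime_of_poly_list poly_sd,
    Polynomial.X + 2⟩

/-- the result of the simulation -/
def so (A : Oracle) (x : List Bool) : List Bool :=
  (sim A (xq x) (xw x) (xl x).length (x.length + 2) []).elim [] (fun z => true :: z)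

theorem ms_run (A : Oracle) (x : List Bool) :
    ∀ (m : ℕ) (a : List Bool), a.length ≤ (xl x).length + 1 → (xl x).length + 2 ≤ m + a.length →
      ms.run A x m a =
        some ((sim A (xq x) (xw x) (xl x).length m a).elim [] (fun z => true :: z))
  | 0, a, h1, h2 => by omega
  | m + 1, a, h1, h2 => by
    unfold Alg.run sim
    have h3 : ms.D (pairBits x a) = sd x a := by
      show sd (unpair (pairBits x a)).1 (unpair (pairBits x a)).2 = _
      rw [unpair_pairBits]
    rw [h3]
    unfold sd
    rcases hs : sact (xq x) (xw x) (xl x).length a with _ | ⟨b, s⟩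
    · simp
    · rw [if_neg (by simp)]
      have hle := sact_ne (q := xq x) (w := xw x) (n := (xl x).length) (a := a) (by rw [hs]; simp)
      cases b with
      | true => simp
      | false =>
        rw [if_neg (by simp)]
        simp only
        exact ms_run A x m (a ++ [A s])
          (by rw [List.length_append, List.length_singleton]; omega)
          (by rw [List.length_append, List.length_singleton]; omega)

theorem ust_len (s : List Bool × List Bool × Bool) : (NPC.ustep s).2.1.length ≤ s.2.1.length := by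
  obtain ⟨a, l, b⟩ := s
  unfold NPC.ustep
  cases b with
  | true => simp
  | false =>
    match l with
    | [] => simp
    | true :: [] => simp
    | true :: c :: l' => simp; omega
    | false :: l' => simp

theorem ust_iter_len : ∀ (k : ℕ) (s : List Bool × List Bool × Bool),
    (NPC.ustep^[k] s).2.1.length ≤ s.2.1.length
  | 0, s => le_refl _
  | k + 1, s => by
    rw [Function.iterate_succ_apply]
    exact (ust_iter_len k _).trans (ust_len s)

theorem unpair_snd_le (y : List Bool) : (unpair y).2.length ≤ y.length :=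
  ust_iter_len y.length ([], y, false)

theorem xl_le (x : List Bool) : (xl x).length ≤ x.length :=
  (unpair_snd_le _).trans (unpair_snd_le _)

theorem isFP_so (A : Oracle) : IsFP A (so A) := by
  refine ⟨ms, fun x => ?_⟩
  have hp : ms.p.eval x.length = x.length + 2 := by
    simp [ms]
  unfold Alg.out
  rw [hp]
  have h1 := xl_le x
  exact ms_run A x (x.length + 2) [] (by simp) (by simp; omega)

/-! ### The proof system -/

/-- the program and the clock are admitted -/
def Ok (c e : ℕ) (R : ℕ → Polynomial ℕ) (G : List (List Bool)) (A : Oracle) (x : List Bool) :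
    Prop :=
  Scale c e (xq x) (xl x).length ∧
    (xq x ∈ G ∨ ¬ ∃ m ≤ (xl x).length, Scale c e (xq x) m ∧ Warn R e (xq x) m A)

open Classical in
/-- the values of the proof system -/
noncomputable def pv (c e : ℕ) (R : ℕ → Polynomial ℕ) (G : List (List Bool)) (z₀ : List Bool)
    (A : Oracle) (x : List Bool) : List Bool :=
  if Ok c e R G A x then
    (sim A (xq x) (xw x) (xl x).length (x.length + 2) []).getD z₀ else z₀

/-- the last step -/
def fin (c e : ℕ) (G : List (List Bool)) (z₀ : List Bool)
    (p : List Bool × List Bool × List Bool) : List Bool :=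
  if (scB c e (xq p.1) (xl p.1).length && (decide (xq p.1 ∈ G) || decide (p.2.1 = [false])) &&
    !(decide (p.2.2 = []))) = true then p.2.2.tail else z₀

theorem poly_fin (c e : ℕ) (G : List (List Bool)) (z₀ : List Bool) :
    NPC.Poly (fin c e G z₀) := by
  have hx : NPC.Poly (fun p : List Bool × List Bool × List Bool => p.1) :=
    NPC.Poly.fst NPC.Poly.id
  have h2 : NPC.Poly (fun p : List Bool × List Bool × List Bool => p.2.1) :=
    NPC.Poly.fst (NPC.Poly.snd NPC.Poly.id)
  have h3 : NPC.Poly (fun p : List Bool × List Bool × List Bool => p.2.2) :=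
    NPC.Poly.snd (NPC.Poly.snd NPC.Poly.id)
  unfold fin
  refine NPC.Poly.ite (Poly.dec_eq ?_ (NPC.Poly.const true)) (NPC.Poly.tail h3)
    (NPC.Poly.const z₀)
  exact NPC.Poly.and (NPC.Poly.and
    (poly_scB c e (poly_xq.comp hx) (NPC.Poly.length (poly_xl.comp hx)))
    (NPC.Poly.or (Poly.dec_mem (poly_xq.comp hx) (NPC.Poly.const G))
      (Poly.dec_eq h2 (NPC.Poly.const [false]))))
    (NPC.Poly.not (Poly.dec_eq h3 (NPC.Poly.const [])))

theorem isFP_pv (c e : ℕ) (R : ℕ → Polynomial ℕ) (G : List (List Bool)) (z₀ : List Bool)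
    (A : Oracle) : IsFP A (pv c e R G z₀ A) := by
  have h1 : IsFP A (fun x => [wev c e x (((prs c e x).map (cds R e x)).map A)]) := by
    refine IsFP.tt (Q := fun x => (prs c e x).map (cds R e x))
      (H := fun p => [wev c e p.1 p.2]) ?_ ?_
    · exact NPC.Poly.map (F := fun x p => cds R e x p) (poly_prs c e) (poly_cds R e)
    · exact NPC.Poly.cons (poly_wev c e) (NPC.Poly.const [])
  have h2 := IsFP.seq (φ := fun p => p.1) (ψ := fin c e G z₀) h1 (isFP_so A)
    (NPC.Poly.fst NPC.Poly.id) (poly_fin c e G z₀)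
  obtain ⟨M, hM⟩ := h2
  refine ⟨M, fun x => ?_⟩
  rw [hM x]
  congr 1
  unfold fin pv so
  simp only
  have h3 : (scB c e (xq x) (xl x).length && (decide (xq x ∈ G) ||
      decide ([wev c e x (((prs c e x).map (cds R e x)).map A)] = [false]))) = true ↔
      Ok c e R G A x := by
    rw [Bool.and_eq_true, Bool.or_eq_true, decide_eq_true_eq, decide_eq_true_eq, scB_iff]
    unfold Ok
    rw [← wev_iff c e R x A]
    simp only [List.cons.injEq, and_true, Bool.not_eq_true]
  by_cases hO : Ok c e R G A x
  · rw [if_pos hO, h3.2 hO]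
    rcases sim A (xq x) (xw x) (xl x).length (x.length + 2) [] with _ | z
    · simp
    · simp
  · rw [if_neg hO]
    have h4 : (scB c e (xq x) (xl x).length && (decide (xq x ∈ G) ||
      decide ([wev c e x (((prs c e x).map (cds R e x)).map A)] = [false]))) = false := by
      rw [← Bool.not_eq_true, h3]
      exact hO
    rw [h4]
    simp

end Pool.Agent.J4H65.OP
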